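import Pool.Agent.W394.BQN.Stm

/-! Project BQN, part TOW: the tower over `(V[z], u)`. -/

set_option autoImplicit false

open Polynomial

noncomputable section

namespace Pool.Agent.W125.BQN

open BQ Pool.Agent.W394.BQN

/-- `GoodN` is invariant under isomorphisms -/
theorem goodN_equiv (n : ℕ) {V D D' : Type} [CommRing V] [CommRing D] [CommRing D']
    (j : V →+* D) (j' : V →+* D') (e : D ≃+* D') (h : ∀ v, e (j v) = j' v)
    (hg : GoodN n V D j) : GoodN n V D' j' := by
  cases n with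
  | zero =>
    obtain ⟨k, f, hf⟩ := hg
    exact ⟨k, f.trans e, fun v => by rw [RingEquiv.trans_apply, hf, h]⟩
  | succ n =>
    obtain ⟨C, _, j₀, u, f, h1, h2, h3⟩ := hg
    exact ⟨C, _, j₀, u, f.trans e, h1, h2, fun v => by rw [RingEquiv.trans_apply, h3, h]⟩

variable {V : Type} [CommRing V] [IsDomain V] (u : V[X])

theorem dom (hu : u ≠ 0) (n : ℕ) :
    IsDomain (tower V[X] u n).C ∧ (tower V[X] u n).u ≠ 0 := by
  induction n with
  | zero => exact ⟨inferInstanceAs (IsDomain V[X]), hu⟩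
  | succ n ih =>
    obtain ⟨h1, h2⟩ := ih
    have := h1
    refine ⟨Node.isDomain (tower V[X] u n).u h2, ?_⟩
    intro h0
    have h3 : Node.ιy (tower V[X] u n).u (Node.y (tower V[X] u n).u) = 0 := by
      have : Node.y (tower V[X] u n).u = 0 := h0
      rw [this, map_zero]
    rw [Node.ιy, Node.lift_y] at h3
    have h4 : (LaurentPolynomial.T 1 : LaurentPolynomial (tower V[X] u n).C).coeff 1 = 0 := by
      rw [h3]; rfl
    rw [LaurentPolynomial.T_apply, if_pos rfl] at h4
    exact one_ne_zero h4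

omit [IsDomain V] in
theorem red {W : Type} [CommRing W] [IsDomain W] (i : V →+* W) (r : V[X] →+* W)
    (hs : Function.Surjective r) (hk : ∀ c, r c = 0 ↔ u ∣ c) (hi : ∀ v, r (C v) = i v) (n : ℕ) :
    ∃ ρ : (tower V[X] u n).C →+* MvPolynomial (Fin n) W,
      Function.Surjective ρ ∧ (∀ c, ρ c = 0 ↔ (tower V[X] u n).u ∣ c) ∧
      ∀ v, ρ ((tower V[X] u n).j (C v)) = MvPolynomial.C (i v) := by
  induction n with
  | zero =>
    refine ⟨(MvPolynomial.C (σ := Fin 0)).comp r, (MvPolynomial.C_surjective (Fin 0)).comp hs,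
      fun c => ?_, fun v => ?_⟩
    · show MvPolynomial.C (r c) = 0 ↔ u ∣ c
      rw [← hk c]
      exact MvPolynomial.C_eq_zero
    · show MvPolynomial.C (r (C v)) = _
      rw [hi]
  | succ n ih =>
    obtain ⟨ρ, h1, h2, h3⟩ := ih
    have hr : ρ (tower V[X] u n).u = 0 := (h2 _).2 dvd_rfl
    let τ := Node.ρy (tower V[X] u n).u ρ hr
    have τj : ∀ c, τ (Node.j (tower V[X] u n).u c) = Polynomial.C (ρ c) :=
      fun c => Node.lift_j _ _ _ _ _ _
    refine ⟨(MvPolynomial.finSuccEquiv W n).symm.toRingEquiv.toRingHom.comp τ, ?_, fun c => ?_,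
      fun v => ?_⟩
    · exact (MvPolynomial.finSuccEquiv W n).symm.surjective.comp (Node.ρy_surjective _ ρ hr h1)
    · have e := Node.ρy_eq_zero (tower V[X] u n).u ρ h2 hr c
      show (MvPolynomial.finSuccEquiv W n).symm (τ c) = 0 ↔ Node.y (tower V[X] u n).u ∣ c
      rw [← e]
      exact (map_eq_zero_iff _ (MvPolynomial.finSuccEquiv W n).symm.injective)
    · show (MvPolynomial.finSuccEquiv W n).symm
        (τ (Node.j (tower V[X] u n).u ((tower V[X] u n).j (C v)))) = _
      have e2 : MvPolynomial.finSuccEquiv W n (MvPolynomial.C (i v)) =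
          Polynomial.C (MvPolynomial.C (i v)) := I.finC (i v)
      rw [τj, h3, ← e2, AlgEquiv.symm_apply_apply]

theorem good (hu : u ≠ 0) {W : Type} [CommRing W] [IsDomain W] [IsPrincipalIdealRing W]
    (hE : E2T W) (i : V →+* W) (hfin : i.Finite) (r : V[X] →+* W)
    (hs : Function.Surjective r) (hk : ∀ c, r c = 0 ↔ u ∣ c) (hi : ∀ v, r (C v) = i v) (n : ℕ) :
    GoodN n V (tower V[X] u n).C ((tower V[X] u n).j.comp Polynomial.C) := by
  induction n with
  | zero =>
    exact ⟨1, (MvPolynomial.uniqueAlgEquiv V (Fin 1)).toRingEquiv,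
      fun v => AlgEquiv.commutes (MvPolynomial.uniqueAlgEquiv V (Fin 1)) v⟩
  | succ n ih =>
    obtain ⟨ρ, h1, h2, h3⟩ := red u i r hs hk hi n
    exact ⟨(tower V[X] u n).C, inferInstance, (tower V[X] u n).j.comp Polynomial.C,
      (tower V[X] u n).u, RingEquiv.refl _, ih,
      ⟨(dom u hu n).2, W, inferInstance, inferInstance, inferInstance, i, n, ρ, hE, hfin, h1, h2,
        h3⟩, fun v => rfl⟩

theorem t_TOW : S_TOW := by
  intro V _ _ _ u hu W _ _ _ hE i hfin r hs hk hi n
  obtain ⟨e, -, -⟩ := Q.strong V[X] u n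
  exact ⟨(e : (tower V[X] u n).C →+* Semi V[X] u n).comp ((tower V[X] u n).j.comp Polynomial.C),
    goodN_equiv n _ _ e (fun v => rfl) (good u hu hE i hfin r hs hk hi n)⟩

end Pool.Agent.W125.BQN
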